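import Pool.Agent.Helper96.FAR.Main
import Pool.Agent.Helper96.KP.Order
import Pool.Agent.Helper96.KP.Inst
import Pool.Agent.Helper23.KP.Main
import Pool.Agent.Helper84.Slope.Goals
import Pool.Agent.Helper99.ZZ.Chain
import Pool.Agent.Helper22.FP.Goals
import Pool.Agent.Helper36.Eps.Bas

/-!
# The inputs `K1H`, `K3H` of the chain, for the alphabets of the irreducible bridges
-/

open scoped ENNReal
open Finset
open Pool.Agent.Helper98.Saw hiding iv iv_le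
open Pool.Agent.Helper92.Eps
open Pool.Agent.Helper92.Poly (gsh Gd mu2 Den)
open Pool.Agent.Helper96.KP
open Pool.Agent.Helper98.K3
open Pool.Agent.Helper23.KP (AP One GapO RegS KEPS_stmt)
open Pool.Agent.Helper99.ZZ (K1H K3H)
open Pool.Agent.Helper22.FP (GoodJ)
open Pool.Agent.Helper84.Slope (KLAT_stmt KSLO_stmt)
open Pool.Agent.Helper96.FAR (FARR_stmt MIRR_stmt)

namespace Pool.Agent.Helper96.K3I


/-! ### `K1H` -/

theorem regS_of {n : ℕ} {A : Alph (Option Blk) n} (hA : Good n A) {β : ℝ} {J : ℕ}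
    (hJ : GoodJ β J) : RegS A β J := by
  intro m hm
  rw [hA.S_eq, hA.S_eq]
  exact hJ m hm

/-- The probability of the event at a corner. -/
theorem k1h : ∀ β ε : ℝ, 0 < β → 0 < ε → ∃ C : ℝ, 0 ≤ C ∧ ∀ (n : ℕ) (A : Alph (Option Blk) n),
    Good n A → ∀ J : ℕ, GoodJ β J →
    K1H A (AP A (gsh n) (DG n A) (DG' n A)) J (ENNReal.ofReal C)
      (ENNReal.ofReal ((2 : ℝ) ^ ε)) := by
  intro β ε hβ hε
  obtain ⟨c, hc0, hlow⟩ := low_S0
  obtain ⟨C, hC⟩ := Helper23.KP.keps c β ε hc0 hβ hε 100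
  refine ⟨|C|, abs_nonneg _, fun n A hA J hJ => ?_⟩
  intro ρ hρ
  have h1 := (hC A (DG n A) (DG' n A) (gsh n) _ _ _ _ mu2 hA.one hA.gap hA.gap'
    (fun T hT => by rw [hA.S_eq]; exact hlow T hT) J (regS_of hA hJ) (J - ρ)
    (Nat.sub_le _ _)).1
  rw [show J - (J - ρ) = ρ by omega] at h1
  refine h1.trans ?_
  rw [← ENNReal.ofReal_pow (by positivity), ← ENNReal.ofReal_mul (abs_nonneg _)]
  apply ENNReal.ofReal_le_ofReal
  rw [← Real.rpow_natCast, ← Real.rpow_mul (by norm_num)]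
  exact mul_le_mul_of_nonneg_right (le_abs_self _) (by positivity)

/-! ### `K3H` -/

theorem one_mono {B : Type} {D : ℕ} {A : Alph B D} {g : B → Prop} {μ : ℕ → ℝ≥0∞} {K K' : ℕ}
    (h : One A g μ K) (hK : K ≤ K') : One A g μ K' where
  cal := h.cal
  ren := h.ren
  anti := h.anti
  den := fun n => ⟨(h.den n).one.trans hK, (h.den n).den, fun t T h1 h2 =>
    ((h.den n).denS t T h1 h2).trans (by gcongr)⟩

theorem gap_mono {B : Type} {D : ℕ} {A : Alph B D} {OK : List B → List B → Prop}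
    {Mr Ml : List B → ℕ → ℤ} {K K' : ℕ} (h : GapO A OK Mr Ml K) (hK : K ≤ K') :
    GapO A OK Mr Ml K' where
  plan := h.plan
  gapr := fun r s h1 h2 => (h.gapr r s h1 h2).trans (by gcongr)
  gapl := fun r s h1 h2 => (h.gapl r s h1 h2).trans (by gcongr)

theorem lat_mono {B : Type} {D : ℕ} {A : Alph B D} {K K' : ℕ} (h : Lat A K) (hK : K ≤ K') :
    Lat A K' := fun T z hT => (h T z hT).trans (by gcongr)

theorem sc_log {i c : ℕ} (h : Nat.log 2 c = i) : Sc i c := by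
  subst h
  refine ⟨Nat.lt_pow_succ_log_self (by norm_num) c, ?_⟩
  rcases Nat.eq_zero_or_pos c with rfl | hc
  · left; simp
  · right; exact Nat.pow_log_le_self 2 (by omega)

/-- All inputs for the level decay of the giants. -/
theorem all_of (hLat : KLAT_stmt) (hSlo : KSLO_stmt) (h1 : FARR_stmt) (h2 : MIRR_stmt) :
    ∃ (c : ℝ) (K : ℕ), 0 < c ∧ ∀ a εF : ℝ, 0 < a → 0 < εF → ∃ (Λ CF : ℕ) (q : ℝ) (n0 : ℕ → ℕ),
    1 ≤ Λ ∧ 0 < q ∧ ∀ (J n : ℕ) (A : Alph (Option Blk) n), n0 J ≤ n → Good n A →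
    All A (DG n A) (DG' n A) (gsh n) mu2 (fun q => Mr (Pool.Agent.Helper92.Eps.cat q)) (fun q => Ml (Pool.Agent.Helper92.Eps.cat q))
      (fun q => Mr (Pool.Agent.Helper92.Eps.cat q)) (fun q => Ml (Pool.Agent.Helper92.Eps.cat q)) LS LS c a q εF Λ CF K J := by
  obtain ⟨c, hc0, hlow⟩ := low_S0
  obtain ⟨KL, hKL⟩ := hLat
  refine ⟨c, max 100 KL, hc0, ?_⟩
  intro a εF ha hεF
  obtain ⟨Λ, CF, hΛ, hfar⟩ := FAR.far_all h1 h2 εF hεF
  obtain ⟨q, hq, hslo⟩ := hSlo a (3 * Λ) ha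
  choose f hf using hslo
  refine ⟨Λ, CF, q, fun J => (range (J + 1)).sup f, hΛ, hq, ?_⟩
  intro J n A hn hA
  have hF := hA.fac
  have hstd : Helper84.Slope.Std n A := ⟨hA.one.cal, hA.one.ren, hA.isAA, hA.fac, hA.facX⟩
  have hord : ∀ q1 q2 : List (Option Blk), 1 ≤ A.H q2 → A.H q2 < A.H q1 →
      DG n A q1 q2 ∨ DG' n A q1 q2 →
      (Mr (Pool.Agent.Helper92.Eps.cat q1) (A.H q2) < A.X q2 ∧ LS q1) ∨ (A.X q2 < Ml (Pool.Agent.Helper92.Eps.cat q1) (A.H q2) ∧ ¬ LS q1) := by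
    intro q1 q2 g1 g2 g3
    have g4 := ORDER hF g1 g2 g3
    have g5 : Mr (Pool.Agent.Helper92.Eps.cat q1) (A.H q2) < A.X q2 ∨ A.X q2 < Ml (Pool.Agent.Helper92.Eps.cat q1) (A.H q2) := by
      rcases g3 with g3 | g3
      · exact g3.2.2.2.2
      · exact g3.2.2.2.2
    rcases g5 with g5 | g5
    · exact Or.inl ⟨g5, g4.1.1 g5⟩
    · exact Or.inr ⟨g5, g4.2.1.1 g5⟩
  obtain ⟨f1, f2⟩ := hfar n A hA.one.cal hA J
  exact
    { one := one_mono hA.one (le_max_left _ _)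
      low := fun T hT => by rw [hA.S_eq]; exact hlow T hT
      gap := gap_mono hA.gap (le_max_left _ _)
      gap' := gap_mono hA.gap' (le_max_left _ _)
      ord := fun q1 q2 g1 g2 g3 => hord q1 q2 g1 g2 (Or.inl g3)
      ord' := fun q1 q2 g1 g2 g3 => hord q1 q2 g1 g2 (Or.inr g3)
      lat := lat_mono (hKL n A hstd) (le_max_right _ _)
      slo := fun j hj hfast => hf j n ((Finset.le_sup (f := f) (mem_range.2 (by omega))).trans hn)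
        A hstd hfast
      far := f1
      farn := f2
      far' := f1
      farn' := f2 }

section

variable {B : Type} {D : ℕ} {A : Alph B D} {OK OK' : List B → List B → Prop} {g : B → Prop}

theorem ap_swap {T : ℕ} {p1 p2 : List B} : AP A g OK OK' T p1 p2 ↔ AP A g OK' OK T p2 p1 :=
  ⟨fun h => ⟨h.2.1, h.1, h.2.2.2, h.2.2.1⟩, fun h => ⟨h.2.1, h.1, h.2.2.2, h.2.2.1⟩⟩

theorem GG_mono {T : ℕ} {φ ψ : List B → ℝ≥0∞} (h : ∀ l, φ l ≤ ψ l) :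
    A.GG T φ ≤ A.GG T ψ := Helper23.KP.GG_mono' T (fun l _ => h l)

/-- The three bounds in the form of the chain. -/
theorem k3h_of {J ρ i : ℕ} {b : ℝ≥0∞}
    (H : ∀ lo lo', 2 ^ (ρ + 1) ≤ lo → 2 ^ (ρ + 1) ≤ lo' →
      M1 A OK OK' g i ρ (wd lo J) (fun _ => 1) * A.S (2 ^ J) ≤ b ∧
      (A.GG (2 ^ ρ) (fun p1 => A.GG (2 ^ ρ) (fun p2 => Pool.Agent.Helper92.Eps.iv (AP A g OK OK' (2 ^ ρ) p1 p2 ∧
        Sc i (A.H p1.dropLast) ∧ A.H p1.dropLast ≤ A.H p2.dropLast)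
          (wd lo J (A.H p1) * wd lo' J (A.H p2))))) * A.S (2 ^ J) ≤ b)
    (H' : ∀ lo lo', 2 ^ (ρ + 1) ≤ lo → 2 ^ (ρ + 1) ≤ lo' →
      M1 A OK' OK g i ρ (wd lo J) (fun _ => 1) * A.S (2 ^ J) ≤ b ∧
      (A.GG (2 ^ ρ) (fun p1 => A.GG (2 ^ ρ) (fun p2 => Pool.Agent.Helper92.Eps.iv (AP A g OK' OK (2 ^ ρ) p1 p2 ∧
        Sc i (A.H p1.dropLast) ∧ A.H p1.dropLast ≤ A.H p2.dropLast)
          (wd lo J (A.H p1) * wd lo' J (A.H p2))))) * A.S (2 ^ J) ≤ b) :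
    ∀ lo, 2 ^ (ρ + 1) ≤ lo →
    A.GG (2 ^ ρ) (fun p1 => A.GG (2 ^ ρ) (fun p2 => Pool.Agent.Helper92.Eps.iv (AP A g OK OK' (2 ^ ρ) p1 p2 ∧
      Nat.log 2 (A.H p1.dropLast) = i ∧ lo < A.H p1 ∧ A.H p1 ≤ lo + 2 ^ J) 1)) * A.S (2 ^ J) ≤
      2 * b ∧
    A.GG (2 ^ ρ) (fun p1 => A.GG (2 ^ ρ) (fun p2 => Pool.Agent.Helper92.Eps.iv (AP A g OK OK' (2 ^ ρ) p1 p2 ∧
      Nat.log 2 (A.H p2.dropLast) = i ∧ lo < A.H p2 ∧ A.H p2 ≤ lo + 2 ^ J) 1)) * A.S (2 ^ J) ≤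
      2 * b ∧
    ∀ lo' : ℕ, 2 ^ (ρ + 1) ≤ lo' →
    A.GG (2 ^ ρ) (fun p1 => A.GG (2 ^ ρ) (fun p2 => Pool.Agent.Helper92.Eps.iv (AP A g OK OK' (2 ^ ρ) p1 p2 ∧
      min (Nat.log 2 (A.H p1.dropLast)) (Nat.log 2 (A.H p2.dropLast)) = i ∧
      lo < A.H p1 ∧ A.H p1 ≤ lo + 2 ^ J ∧ lo' < A.H p2 ∧ A.H p2 ≤ lo' + 2 ^ J) 1)) *
      A.S (2 ^ J) ≤ 2 * b := by
  intro lo hlo
  have hb : b ≤ 2 * b := by
    rw [two_mul]
    exact le_self_add
  refine ⟨?_, ?_, ?_⟩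
  · refine le_trans (mul_le_mul_left ?_ _) ((H lo lo hlo hlo).1.trans hb)
    unfold M1
    refine GG_mono (fun p1 => GG_mono (fun p2 => ?_))
    by_cases h : AP A g OK OK' (2 ^ ρ) p1 p2 ∧ Nat.log 2 (A.H p1.dropLast) = i ∧ lo < A.H p1 ∧
      A.H p1 ≤ lo + 2 ^ J
    · rw [Helper36.Eps.iv_pos h, Helper36.Eps.iv_pos ⟨h.1, sc_log h.2.1⟩]
      unfold wd
      rw [Helper36.Eps.iv_pos h.2.2, mul_one]
    · rw [Helper36.Eps.iv_neg h]
      exact zero_le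
  · refine le_trans (mul_le_mul_left ?_ _) ((H' lo lo hlo hlo).1.trans hb)
    unfold M1
    rw [Helper36.Eps.GG_comm]
    refine GG_mono (fun p1 => GG_mono (fun p2 => ?_))
    by_cases h : AP A g OK OK' (2 ^ ρ) p2 p1 ∧ Nat.log 2 (A.H p1.dropLast) = i ∧ lo < A.H p1 ∧
      A.H p1 ≤ lo + 2 ^ J
    · rw [Helper36.Eps.iv_pos h, Helper36.Eps.iv_pos ⟨ap_swap.1 h.1, sc_log h.2.1⟩]
      unfold wd
      rw [Helper36.Eps.iv_pos h.2.2, mul_one]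
    · rw [Helper36.Eps.iv_neg h]
      exact zero_le
  · intro lo' hlo'
    have k1 := (H lo lo' hlo hlo').2
    have k2 := (H' lo' lo hlo' hlo).2
    have hpt : ∀ p1 p2 : List B, Pool.Agent.Helper92.Eps.iv (AP A g OK OK' (2 ^ ρ) p1 p2 ∧
      min (Nat.log 2 (A.H p1.dropLast)) (Nat.log 2 (A.H p2.dropLast)) = i ∧
      lo < A.H p1 ∧ A.H p1 ≤ lo + 2 ^ J ∧ lo' < A.H p2 ∧ A.H p2 ≤ lo' + 2 ^ J) 1 ≤
      Pool.Agent.Helper92.Eps.iv (AP A g OK OK' (2 ^ ρ) p1 p2 ∧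
        Sc i (A.H p1.dropLast) ∧ A.H p1.dropLast ≤ A.H p2.dropLast)
          (wd lo J (A.H p1) * wd lo' J (A.H p2)) +
      Pool.Agent.Helper92.Eps.iv (AP A g OK' OK (2 ^ ρ) p2 p1 ∧
        Sc i (A.H p2.dropLast) ∧ A.H p2.dropLast ≤ A.H p1.dropLast)
          (wd lo' J (A.H p2) * wd lo J (A.H p1)) := by
      intro p1 p2
      by_cases h : AP A g OK OK' (2 ^ ρ) p1 p2 ∧
        min (Nat.log 2 (A.H p1.dropLast)) (Nat.log 2 (A.H p2.dropLast)) = i ∧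
        lo < A.H p1 ∧ A.H p1 ≤ lo + 2 ^ J ∧ lo' < A.H p2 ∧ A.H p2 ≤ lo' + 2 ^ J
      · obtain ⟨g1, g2, g3, g4, g5, g6⟩ := id h
        rw [Helper36.Eps.iv_pos h]
        rcases le_total (A.H p1.dropLast) (A.H p2.dropLast) with hle | hle
        · have hl : Nat.log 2 (A.H p1.dropLast) = i := by
            rw [← g2, min_eq_left (Nat.log_mono_right hle)]
          refine le_trans ?_ le_self_add
          rw [Helper36.Eps.iv_pos ⟨g1, sc_log hl, hle⟩]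
          unfold wd
          rw [Helper36.Eps.iv_pos ⟨g3, g4⟩, Helper36.Eps.iv_pos ⟨g5, g6⟩, mul_one]
        · have hl : Nat.log 2 (A.H p2.dropLast) = i := by
            rw [← g2, min_eq_right (Nat.log_mono_right hle)]
          refine le_trans ?_ le_add_self
          rw [Helper36.Eps.iv_pos ⟨ap_swap.1 g1, sc_log hl, hle⟩]
          unfold wd
          rw [Helper36.Eps.iv_pos ⟨g5, g6⟩, Helper36.Eps.iv_pos ⟨g3, g4⟩, mul_one]
      · rw [Helper36.Eps.iv_neg h]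
        exact zero_le
    have hC : Calc A := Helper77.Eps.stmtCalc A
    have hsum : A.GG (2 ^ ρ) (fun p1 => A.GG (2 ^ ρ) (fun p2 => Pool.Agent.Helper92.Eps.iv (AP A g OK OK' (2 ^ ρ) p1 p2 ∧
      min (Nat.log 2 (A.H p1.dropLast)) (Nat.log 2 (A.H p2.dropLast)) = i ∧
      lo < A.H p1 ∧ A.H p1 ≤ lo + 2 ^ J ∧ lo' < A.H p2 ∧ A.H p2 ≤ lo' + 2 ^ J) 1)) ≤
      A.GG (2 ^ ρ) (fun p1 => A.GG (2 ^ ρ) (fun p2 => Pool.Agent.Helper92.Eps.iv (AP A g OK OK' (2 ^ ρ) p1 p2 ∧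
        Sc i (A.H p1.dropLast) ∧ A.H p1.dropLast ≤ A.H p2.dropLast)
          (wd lo J (A.H p1) * wd lo' J (A.H p2)))) +
      A.GG (2 ^ ρ) (fun p1 => A.GG (2 ^ ρ) (fun p2 => Pool.Agent.Helper92.Eps.iv (AP A g OK' OK (2 ^ ρ) p1 p2 ∧
        Sc i (A.H p1.dropLast) ∧ A.H p1.dropLast ≤ A.H p2.dropLast)
          (wd lo' J (A.H p1) * wd lo J (A.H p2)))) := by
      rw [Helper36.Eps.GG_comm (A := A) (2 ^ ρ) (2 ^ ρ) (fun p1 p2 =>
        Pool.Agent.Helper92.Eps.iv (AP A g OK' OK (2 ^ ρ) p1 p2 ∧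
        Sc i (A.H p1.dropLast) ∧ A.H p1.dropLast ≤ A.H p2.dropLast)
          (wd lo' J (A.H p1) * wd lo J (A.H p2))), ← hC.GG_addf]
      refine GG_mono (fun p1 => ?_)
      rw [← hC.GG_addf]
      exact GG_mono (fun p2 => hpt p1 p2)
    refine (mul_le_mul_left hsum _).trans ?_
    rw [add_mul, two_mul]
    exact add_le_add k1 k2

end

/-- **Level decay of the giants**, for the alphabets of the irreducible bridges. -/
theorem k3h (hK : K3C_stmt) (hLat : KLAT_stmt) (hSlo : KSLO_stmt) (h1 : FARR_stmt)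
    (h2 : MIRR_stmt) : ∀ β : ℝ, 0 < β → ∃ (C Q θ : ℝ) (n0 : ℕ → ℕ), 0 ≤ C ∧ 1 ≤ Q ∧ 0 < θ ∧
    θ < 1 ∧ ∀ (J n : ℕ) (A : Alph (Option Blk) n), n0 J ≤ n → Good n A → GoodJ β J →
    K3H A (AP A (gsh n) (DG n A) (DG' n A)) J (ENNReal.ofReal C) (ENNReal.ofReal Q)
      (ENNReal.ofReal θ) := by
  intro β hβ
  obtain ⟨c, K, hc, hall⟩ := all_of hLat hSlo h1 h2
  obtain ⟨a, εF, ha, -, hεF, k⟩ := hK Helper23.KP.keps c β hc hβ K
  obtain ⟨Λ, CF, q, n0, hΛ, hq, hall⟩ := hall a εF ha hεF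
  obtain ⟨C, Q, θ, hC, hQ, hθ, hθ1, k⟩ := k Λ CF q hΛ hq
  refine ⟨2 * C, Q, θ, n0, by positivity, hQ, hθ, hθ1, ?_⟩
  intro J n A hn hA hJ
  have hAll := hall J n A hn hA
  have hsym : All A (DG' n A) (DG n A) (gsh n) mu2 (fun q => Mr (Pool.Agent.Helper92.Eps.cat q)) (fun q => Ml (Pool.Agent.Helper92.Eps.cat q))
      (fun q => Mr (Pool.Agent.Helper92.Eps.cat q)) (fun q => Ml (Pool.Agent.Helper92.Eps.cat q)) LS LS c a q εF Λ CF K J :=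
    { one := hAll.one, low := hAll.low, gap := hAll.gap', gap' := hAll.gap, ord := hAll.ord'
      ord' := hAll.ord, lat := hAll.lat, slo := hAll.slo, far := hAll.far', farn := hAll.farn'
      far' := hAll.far, farn' := hAll.farn }
  have hR := regS_of hA hJ
  have k1 := k A _ _ _ _ _ _ _ _ _ _ J hR hAll
  have k2 := k A _ _ _ _ _ _ _ _ _ _ J hR hsym
  intro ρ i lo hρ hi hlo
  have key := k3h_of (A := A) (OK := DG n A) (OK' := DG' n A) (g := gsh n) (J := J) (ρ := ρ)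
    (i := i) (b := ENNReal.ofReal (C * Q ^ (J - ρ) * θ ^ (J - i)))
    (fun lo lo' hlo hlo' => k1 i ρ lo lo' hi hρ hlo hlo')
    (fun lo lo' hlo hlo' => k2 i ρ lo lo' hi hρ hlo hlo') lo hlo
  have e : 2 * ENNReal.ofReal (C * Q ^ (J - ρ) * θ ^ (J - i)) =
      ENNReal.ofReal (2 * C) * ENNReal.ofReal Q ^ (J - ρ) * ENNReal.ofReal θ ^ (J - i) := by
    rw [← ENNReal.ofReal_pow (by positivity), ← ENNReal.ofReal_pow (by positivity),
      ← ENNReal.ofReal_mul (by positivity), ← ENNReal.ofReal_mul (by positivity),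
      show (2 : ℝ≥0∞) = ENNReal.ofReal 2 by simp, ← ENNReal.ofReal_mul (by norm_num)]
    congr 1
    ring
  rw [e] at key
  exact key

end Pool.Agent.Helper96.K3I
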