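import Pool.Agent.Helper23.KP.Main
import Pool.Agent.Helper27.K3.DICH
import Pool.Agent.Helper27.K3.OVR
import Pool.Agent.Helper29.K3.SFST
import Pool.Agent.Helper29.K3.TRI
import Pool.Agent.Helper37.K3.LTL
import Pool.Agent.Helper4.K3.LMV
import Pool.Agent.Helper42.K3.NTS
import Pool.Agent.Helper47.K3.CNT
import Pool.Agent.Helper48.K3.GAPM
import Pool.Agent.Helper49.K3.RED
import Pool.Agent.Helper55.K3.K3B
import Pool.Agent.Helper57.K3.NEG
import Pool.Agent.Helper60.K3.FCNT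
import Pool.Agent.Helper72.K3.HIT
import Pool.Agent.Helper74.K3.NOH2
import Pool.Agent.Helper74.K3.SRAT
import Pool.Agent.Helper77.K3.K3A
import Pool.Agent.Helper79.K3.NRM
import Pool.Agent.Helper82.K3.NEA
import Pool.Agent.Helper85.K3.LMAX
import Pool.Agent.Helper86.K3.NOH
import Pool.Agent.Helper89.K3.WINM
import Pool.Agent.Helper90.K3.SUC
import Pool.Agent.Helper93.K3.K3C
import Pool.Agent.Helper97.K3.FRM

/-!
# Level decay of the giants (abstract part): assembly
-/

open Pool.Agent.Helper98.K3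

namespace Pool.Agent.Helper96.K3I

theorem srat : SRAT_stmt := Helper74.K3.SRAT Helper29.K3.SFST
theorem ltl : LTL_stmt := Helper37.K3.LTL Helper85.K3.LMAX
theorem cnt : CNT_stmt := Helper47.K3.CNT Helper27.K3.OVR ltl srat
theorem noh : NOH_stmt := Helper86.K3.NOH (Helper72.K3.HIT Helper23.KP.pre2) cnt Helper29.K3.TRI
theorem nea : NEA_stmt :=
  Helper82.K3.NEA (Helper90.K3.SUC (Helper42.K3.NTS Helper23.KP.pre2)) cnt Helper29.K3.TRI
theorem k3a : K3A_stmt :=
  Helper77.K3.K3A (Helper60.K3.FCNT Helper29.K3.SFST) Helper89.K3.WINM noh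
    (Helper74.K3.NOH2 Helper49.K3.RED srat) Helper48.K3.GAPM
    (Helper4.K3.LMV Helper49.K3.RED Helper85.K3.LMAX) nea (Helper79.K3.NRM Helper49.K3.RED)
    Helper97.K3.FRM Helper27.K3.DICH
theorem k3b : K3B_stmt := Helper55.K3.K3B k3a Helper57.K3.NEG
theorem k3c : K3C_stmt := Helper93.K3.K3C k3b Helper89.K3.WINM

end Pool.Agent.Helper96.K3I
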